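import Mathlib
import Pool.Agent.Run7.h643.MW.PrLog
import Pool.Agent.H297R2.ThmJs

/-!
# Gel'fond's conjecture in growing degree for the logarithms of consecutive primes in bounded intervals

For all `l` and `m` there are `L` and `C` with the following property. For every natural number `N` let arbitrary
algebraic numbers `α_1(N), …, α_l(N)` be given, of any degrees and heights, which are linearly independent over the
rational numbers. Then there are infinitely many `N` such that the interval `(N, N + L]` contains `m` consecutive primes
`p_1 < … < p_m` for which the `l + m` numbers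

  `e ^ α_1(N), …, e ^ α_l(N), log p_1, …, log p_m`

satisfy no nontrivial relation of degree at most `δ` over number fields of degree at most `δ`, for every `δ` with
`(δ + 2) ^ C ≤ log N`; so `δ` may be a fixed power of `log p_1`. There is no bound for the heights of the coefficients, and
`L` and `C` do not depend on the numbers `α_i(N)`.

The starting results of this problem are about all numbers in a window without a bounded number of exceptions, where
the exceptions depend on the `α_i` and `δ`; they say nothing about primes. The proof: all primes of an interval of bounded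
length which contains sufficiently many primes (theorem of Maynard and Tao, `Pool.Agent.H362R2.CM.quarter` of the starting
files) are elements of one window, and between its at most `l + 2` exceptional elements there are `m` consecutive primes.
Here the theorem on windows is applied with the constants `e ^ α_i(N)`, which are arbitrary in it
(`Pool.Agent.R351.GD.windowP_exp` of the starting files), and they satisfy no relations by the theorem of Lindemann and
Weierstrass.
-/

set_option autoImplicit false

namespace Pool.Agent.Results.MP_c82530_nt.ConsecutivePrimes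

/-- The numbers `e ^ α_i` and `x_p` satisfy no nontrivial relation of degree at most `δ`: no nonzero polynomial of total
degree at most `δ` over a number field of degree at most `δ` vanishes at them. -/
def NoRelation (δ : ℕ) {l : ℕ} {ι : Type} (α : Fin l → ℂ) (x : ι → ℂ) : Prop :=
  ∀ K : IntermediateField ℚ ℂ, FiniteDimensional ℚ K → Module.finrank ℚ K ≤ δ →
    ∀ P : MvPolynomial (Fin l ⊕ ι) K, P ≠ 0 → P.totalDegree ≤ δ →
      MvPolynomial.aeval (Sum.elim (fun i => Complex.exp (α i)) x) P ≠ 0

lemma noRelation_of_fr {δ l : ℕ} {ι : Type} {α : Fin l → ℂ} {x : ι → ℂ} (hα : ∀ i, IsAlgebraic ℚ (α i))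
    (hli : LinearIndependent ℚ α)
    (h : Pool.Agent.Run7.h643.MW.Fr δ (fun i => Complex.exp (α i)) x) : NoRelation δ α x :=
  fun K hK hKd P hP0 hPd hP => hP0 (Pool.Agent.R351.GD.inj_subK _
    (Pool.Agent.R351.GD.indep_field _ (Pool.Agent.H297R2.exp_algebraicIndependent α hα hli) K hK) P
    (h K hK hKd P hPd hP))

/-- **Main result.** (`Nat.nth Nat.Prime k` is the prime number with the index `k`.) -/
theorem result (l m : ℕ) : ∃ L C : ℕ, ∀ α : ℕ → Fin l → ℂ, (∀ N i, IsAlgebraic ℚ (α N i)) →
    (∀ N, LinearIndependent ℚ (α N)) →
    {N : ℕ | ∃ k : ℕ, (∀ i : Fin m, N < Nat.nth Nat.Prime (k + i) ∧ Nat.nth Nat.Prime (k + i) ≤ N + L) ∧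
      ∀ δ : ℕ, ((δ : ℝ) + 2) ^ C ≤ Real.log N →
        NoRelation δ (α N) fun i : Fin m => ((Real.log (Nat.nth Nat.Prime (k + i)) : ℝ) : ℂ)}.Infinite := by
  obtain ⟨L, C, h⟩ := Pool.Agent.Run7.h643.MW.primes_log l m
  refine ⟨L, C, fun α hα hli => (h fun N i => Complex.exp (α N i)).mono ?_⟩
  rintro N ⟨k, hk, hfree⟩
  exact ⟨k, hk, fun δ hδ => noRelation_of_fr (hα N) (hli N) (hfree δ hδ)⟩

end Pool.Agent.Results.MP_c82530_nt.ConsecutivePrimes
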