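import Pool.Agent.Results.MP_c82530_nt.RandomCombinations
import Pool.Agent.Run7.h469.Ns
import Pool.Agent.Run7.h469.Cnt

/-!
# Gel'fond's conjecture: exponentials and logarithms of products of powers with exponents near a generic subspace

Let `LogForms` be the space of all linear combinations, with algebraic coefficients, of `1` and logarithms of algebraic numbers,
`α_1, …, α_s` algebraic numbers which are linearly independent over `ℚ`, and `E` the `ℚ̄`-space (of bounded dimension) spanned by
`1` and by the coefficients of all relations `∑_μ e^(μ_1 α_1 + ⋯ + μ_s α_s) ℓ_μ = 0`, `0 ≤ μ_i ≤ D`, `ℓ_μ ∈ LogForms`. For every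
`j ≤ n` let `λ_{j,1}, …, λ_{j,k}` be elements of `LogForms` which are linearly independent over `ℚ̄`, for instance `ℚ`-linearly
independent logarithms of algebraic numbers, and `ζ_j ∈ LogForms`. For an integral `n × k` matrix `a` let
`y_j = ζ_j + ∑_i a_{j,i} λ_{j,i}`, for instance the logarithms of the products `∏_i β_{j,i}^(a_{j,i})` of algebraic numbers. We
say that `y` has no relation if the `y_j` are linearly independent over `ℚ̄` modulo `E`, and every relation
`P (e^(α_1), …, e^(α_s), y_1, …, y_n, l_1, …, l_t) = 0` with algebraic coefficients, of degree at most `D` in each of the first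
`s + n` variables and of total degree at most `1` in ARBITRARY elements `l_j` of `LogForms` which are `ℚ̄`-linearly independent
modulo `E` and the `y_i`, is trivial.

Theorem. There are `k₀` and `δ > 0`, depending only on `s`, `n` and `D`, with the following property. Let `k ≥ k₀`, `h ≥ 0` and
`0 ≤ θ < 1`. (1) For all systems `γ` of `h` real `n × k` matrices outside a set of Hausdorff dimension at most
`n k (h - 1) + (n k - δ k + h) / (1 - θ)` (less than `n k h`, if `h + n k θ < δ k`) and all `A`, for ALL but finitely many of the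
integral matrices `a`, for which the distance of `a` to some point `∑ x_l γ_l` of the space spanned by `γ` is at most
`A (1 + |x|)^θ`, the row `y` has no relation. (2) If `h ≥ 1` and `h + n k θ < δ k`, then for almost all `γ` this is true for ALL
`α`, ALL `λ` and ALL `ζ` at the same time.

So for almost all real `n × k` matrices `γ` and all large integers `v` the numbers `e^(α_i)`, `α_i` arbitrary algebraic numbers,
and the logarithms of the numbers `∏_i p_i^⌊v γ_{j,i}⌋`, `p_i` arbitrary primes, have no relation of degree at most `D` (`h = 1`,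
`θ = 0`, `k ≥ k₀`, `δ k > 1`). The dimension `h` of the subspaces can be large, up to `δ k`. As `A` is arbitrary, the same holds
for the integral matrices near the affine subspaces parallel to the given one.

The theorem `RandomCombinations` of this problem (of our team) shows that for an arbitrary finite set `X` of rational numbers all
but `C |X|^(n k - δ k)` of the matrices with entries in `X` give a row without relations. For `X = {-T, …, T}` and fixed `k` this
is a power saving, by the power `δ k` of `T`, and this power is larger than the dimension `h`. A covering argument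
(`Pool.Agent.N251.LF.Tuples` of the starting library, where it is applied to tuples of integers) bounds the dimension of the
exceptional set of `γ`; `LogForms` is countable, which gives (2).
-/

set_option autoImplicit false

namespace Pool.Agent.Results.MP_c82530_nt.NearGenericSubspaces

open Module MeasureTheory
open Run7.h469.Ns (Near NearSubspaces NearAlmostAll near_rat near_int)
open Pool.Agent.Results.MP_c82530_nt.RandomCombinations (LogForms NoRelation)

/-- **Exponentials and logarithms near generic subspaces.** There are `k₀` and `δ > 0`, depending only on `s`, `n` and `D`,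
such that for all `k ≥ k₀`, `h` and `0 ≤ θ < 1`: (1) for all `α`, `λ` and `ζ` as in the theorem `RandomCombinations`, for all
systems `γ` of `h` real `n × k` matrices outside a set of dimension at most `n k (h - 1) + (n k - δ k + h) / (1 - θ)`, for all `A`,
for all but finitely many of the integral matrices `a` within `A (1 + |x|)^θ` of some point `∑ x_l γ_l` of the space spanned by
`γ` the row `y_j = ζ_j + ∑_i a_{j,i} λ_{j,i}` has no relation; (2) if `h ≥ 1` and `h + n k θ < δ k`, then for almost all `γ` this
is true for ALL `α`, `λ` and `ζ`. -/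
theorem result (s n D : ℕ) (hn : 1 ≤ n) : ∃ (k₀ : ℕ) (δ : ℝ), 0 < δ ∧ ∀ k ≥ k₀, ∀ (h : ℕ) (θ : ℝ), 0 ≤ θ → θ < 1 →
    (∀ α : Fin s → ℂ, (∀ i, IsAlgebraic ℚ (α i)) → LinearIndependent ℚ α →
      ∀ lam : Fin n → Fin k → ℂ, (∀ j i, lam j i ∈ LogForms) →
      (∀ j, LinearIndependent (algebraicClosure ℚ ℂ) (lam j)) → ∀ ζ : Fin n → ℂ, (∀ j, ζ j ∈ LogForms) →
      NearSubspaces n k h ((n : ℝ) * k * (h - 1) + (n * k - δ * k + h) / (1 - θ)) θ
        (fun a => NoRelation D α (fun j => ζ j + ∑ i, (a j i : ℂ) * lam j i))) ∧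
    (1 ≤ h → (h : ℝ) + n * k * θ < δ * k → ∀ᵐ γ : Fin n × Fin k × Fin h → ℝ,
      ∀ (α : Fin s → ℂ) (lam : Fin n → Fin k → ℂ) (ζ : Fin n → ℂ), (∀ i, IsAlgebraic ℚ (α i)) →
      LinearIndependent ℚ α → (∀ j i, lam j i ∈ LogForms) → (∀ j, LinearIndependent (algebraicClosure ℚ ℂ) (lam j)) →
      (∀ j, ζ j ∈ LogForms) →
      ∀ A : ℝ, {a ∈ Near γ A θ | ¬ NoRelation D α (fun j => ζ j + ∑ i, (a j i : ℂ) * lam j i)}.Finite) := by
  obtain ⟨k₀, C, δ, hδ, hR⟩ := Pool.Agent.Results.MP_c82530_nt.RandomCombinations.result s n D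
  refine ⟨max k₀ 1, min δ 1, lt_min hδ one_pos, fun k hk h θ hθ0 hθ => ?_⟩
  have hk1 : 1 ≤ k := (le_max_right _ _).trans hk
  have hk0 : k ≥ k₀ := (le_max_left _ _).trans hk
  have key : ∀ α : Fin s → ℂ, (∀ i, IsAlgebraic ℚ (α i)) → LinearIndependent ℚ α →
      ∀ lam : Fin n → Fin k → ℂ, (∀ j i, lam j i ∈ LogForms) →
      (∀ j, LinearIndependent (algebraicClosure ℚ ℂ) (lam j)) → ∀ ζ : Fin n → ℂ, (∀ j, ζ j ∈ LogForms) →
      NearSubspaces n k h ((n : ℝ) * k * (h - 1) + (n * k - min δ 1 * k + h) / (1 - θ)) θ
        (fun a => NoRelation D α (fun j => ζ j + ∑ i, (a j i : ℂ) * lam j i)) ∧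
      (1 ≤ h → (h : ℝ) + n * k * θ < min δ 1 * k → NearAlmostAll n k h θ
        (fun a => NoRelation D α (fun j => ζ j + ∑ i, (a j i : ℂ) * lam j i))) := by
    intro α hα hαi lam hlam hli ζ hζ
    obtain ⟨-, -, hR2⟩ := hR α hα hαi
    have h1 := near_rat h hn hk1 (fun a => NoRelation D α (fun j => ζ j + ∑ i, (a j i : ℂ) * lam j i))
      (Nat.cast_nonneg C)
      (fun X hX => by
        refine le_of_eq_of_le ?_ (hR2 k hk0 lam hlam hli ζ hζ X hX)
        congr!) hθ0 hθ
    simpa only [Rat.cast_intCast] using h1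
  refine ⟨fun α hα hαi lam hlam hli ζ hζ => (key α hα hαi lam hlam hli ζ hζ).1, fun hh hlt => ?_⟩
  have hL : (LogForms : Set ℂ).Countable := Run7.h469.Cnt.countable_logForms
  have hA : {x : ℂ | IsAlgebraic ℚ x}.Countable := Algebraic.countable ℚ ℂ
  have hT : ((Set.univ.pi fun _ : Fin s => {x : ℂ | IsAlgebraic ℚ x}) ×ˢ
      ((Set.univ.pi fun _ : Fin n => Set.univ.pi fun _ : Fin k => (LogForms : Set ℂ)) ×ˢ
      (Set.univ.pi fun _ : Fin n => (LogForms : Set ℂ)))).Countable :=
    (Set.countable_univ_pi fun _ => hA).prod ((Set.countable_univ_pi fun _ => Set.countable_univ_pi fun _ => hL).prod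
      (Set.countable_univ_pi fun _ => hL))
  have hae : ∀ᵐ γ : Fin n × Fin k × Fin h → ℝ, ∀ t (_ : t ∈ ((Set.univ.pi fun _ : Fin s => {x : ℂ | IsAlgebraic ℚ x}) ×ˢ
      ((Set.univ.pi fun _ : Fin n => Set.univ.pi fun _ : Fin k => (LogForms : Set ℂ)) ×ˢ
      (Set.univ.pi fun _ : Fin n => (LogForms : Set ℂ))))), LinearIndependent ℚ t.1 →
      (∀ j, LinearIndependent (algebraicClosure ℚ ℂ) (t.2.1 j)) →
      ∀ A : ℝ, {a ∈ Near γ A θ | ¬ NoRelation D t.1 (fun j => t.2.2 j + ∑ i, (a j i : ℂ) * t.2.1 j i)}.Finite := by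
    rw [ae_ball_iff hT]
    rintro ⟨α, lam, ζ⟩ ⟨hα, hlam, hζ⟩
    by_cases hli : LinearIndependent ℚ α ∧ ∀ j, LinearIndependent (algebraicClosure ℚ ℂ) (lam j)
    · obtain ⟨-, h2⟩ := key α (fun i => hα i (Set.mem_univ _)) hli.1 lam
        (fun j i => hlam j (Set.mem_univ _) i (Set.mem_univ _)) hli.2 ζ (fun j => hζ j (Set.mem_univ _))
      filter_upwards [h2 hh hlt] with γ hγ _ _
      exact hγ
    · exact Filter.Eventually.of_forall fun γ h3 h4 => absurd ⟨h3, h4⟩ hli
  filter_upwards [hae] with γ hγ α lam ζ hα hαi hlam hli hζ A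
  exact hγ (α, lam, ζ) ⟨fun i _ => hα i, fun j _ i _ => hlam j i, fun j _ => hζ j⟩ hαi hli A

end Pool.Agent.Results.MP_c82530_nt.NearGenericSubspaces
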