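import Pool.Agent.Run7.h788.RandFree
import Pool.Agent.R350.Inst
import Pool.Agent.R350.HI

/-!
# Gel'fond's conjecture: arbitrary exponentials, random combinations of logarithms, and arbitrary
# logarithms

Let `LogForms` be the space of all linear combinations, with algebraic coefficients, of `1` and
logarithms of algebraic numbers.  For `ℚ`-linearly independent algebraic numbers `α_1, …, α_s` let
`E` be the `ℚ̄`-space spanned by `1` and by the coefficients `ℓ_μ` of all relations

  `∑_μ e ^ (μ_1 α_1 + ⋯ + μ_s α_s) ℓ_μ = 0`, `0 ≤ μ_i ≤ D`, `ℓ_μ ∈ LogForms`.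

Its dimension is bounded in terms of `s` and `D`.

For every `j ≤ n` let `λ_{j,1}, …, λ_{j,k}` be arbitrary elements of `LogForms` which are linearly
independent over `ℚ̄`; for instance, by the theorem of Baker, any logarithms of algebraic numbers which
are linearly independent over `ℚ` (for different `j` they may be the same).  Let `ζ_j ∈ LogForms`, for
instance `0`.  For a matrix `a = (a_{j,i})` with entries in a finite set `X` of rational numbers, for
instance `{0, 1}`, let `y_j = ζ_j + ∑_i a_{j,i} λ_{j,i}`.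

**Theorem.** For all but `C |X| ^ (n k - δ k)` of the `|X| ^ (n k)` matrices `a` the `y_j` are linearly
independent over `ℚ̄` modulo `E`, and every relation
`P (e ^ α_1, …, e ^ α_s, y_1, …, y_n, l_1, …, l_t) = 0`, with algebraic coefficients, of degree at most
`D` in each of the first `s + n` variables and of total degree at most `1` in ARBITRARY elements `l_j`
of `LogForms` (any number of them, chosen after `a`) which are `ℚ̄`-linearly independent modulo `E` and
the `y_i`, is trivial.  Here `k ≥ k₀`, and `k₀`, `C`, `δ > 0` depend only on `s`, `n`, `D`, and not on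
the `α`, the `λ`, the `ζ` and on `X`.

For `ζ = 0` and `X = {0, 1}` the `y_j` are the logarithms of random products of `k` given
multiplicatively independent algebraic numbers: the exceptions are exponentially few in `k`.

The starting result `RandomLogarithms` of this problem has the same random sums without the further
logarithms `l_j`, and `LinearInArbitraryLogs` has logarithms of integers up to `x`, with the saving
`(log log x) ^ C / log x`, in the place of the `y_j`.

The proof.  By the hyperplane case of the linear subgroup theorem of Waldschmidt and Roy every cube in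
sufficiently many linearly independent directions contains a point which has only formal relations
over the space of the monomials in the `e ^ α_i` (`Pool.Agent.R350.PD_all`), and an iterated
Cauchy-Schwarz inequality (`Pool.Agent.Y918.OL.cube_count`) shows that the exceptional parameters are
exponentially rare (`Pool.Agent.Run7.h788.RandFree`).  Relations between the `e ^ α_i` are excluded by
the theorem of Lindemann and Weierstrass.
-/

set_option autoImplicit false

namespace Pool.Agent.Results.MP_c82530_nt.RandomCombinations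

open Module MvPolynomial

/-- the linear combinations, with algebraic coefficients, of `1` and logarithms of algebraic numbers -/
noncomputable def LogForms : Submodule (algebraicClosure ℚ ℂ) ℂ :=
  Submodule.span (algebraicClosure ℚ ℂ) ({1} ∪ {z : ℂ | IsAlgebraic ℚ (Complex.exp z)})

/-- the space spanned by `1` and the coefficients of all relations
`∑_μ e ^ (μ_1 α_1 + ⋯ + μ_s α_s) ℓ_μ = 0`, `0 ≤ μ_i ≤ D`, `ℓ_μ ∈ LogForms` -/
noncomputable def RelCoeffs {s : ℕ} (D : ℕ) (α : Fin s → ℂ) :
    Submodule (algebraicClosure ℚ ℂ) ℂ :=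
  Submodule.span (algebraicClosure ℚ ℂ) ({1} ∪ {z : ℂ | ∃ ℓ : (Fin s → Fin (D + 1)) → ℂ,
    (∀ μ, ℓ μ ∈ LogForms) ∧ ∑ μ, Complex.exp (∑ i, (μ i : ℕ) * α i) * ℓ μ = 0 ∧ ∃ μ, z = ℓ μ})

/-- `y` is independent modulo `RelCoeffs D α`, and the numbers `e ^ α_i`, `y_i` have no relation of
degree at most `D` which is linear in elements of `LogForms` independent modulo `RelCoeffs D α` and
`y` -/
def NoRelation {s n : ℕ} (D : ℕ) (α : Fin s → ℂ) (y : Fin n → ℂ) : Prop :=
  (∀ c : Fin n → algebraicClosure ℚ ℂ, ∑ i, c i • y i ∈ RelCoeffs D α → c = 0) ∧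
  ∀ (t : ℕ) (l : Fin t → ℂ), (∀ j, l j ∈ LogForms) →
    (∀ c : Fin t → algebraicClosure ℚ ℂ, ∑ j, c j • l j ∈ RelCoeffs D α ⊔
      Submodule.span (algebraicClosure ℚ ℂ) (Set.range y) → c = 0) →
    ∀ P : MvPolynomial (Fin s ⊕ (Fin n ⊕ Fin t)) (algebraicClosure ℚ ℂ),
      (∀ i, P.degreeOf (Sum.inl i) ≤ D) →
      (∀ i, P.degreeOf (Sum.inr (Sum.inl i)) ≤ D) →
      (∀ β ∈ P.support, ∑ j, β (Sum.inr (Sum.inr j)) ≤ 1) →
      aeval (Sum.elim (fun i => Complex.exp (α i)) (Sum.elim y l)) P = 0 → P = 0

theorem noRelation_of {s n D : ℕ} {α : Fin s → ℂ} {y : Fin n → ℂ}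
    (h : Pool.Agent.R350.NoRelE D α y) : NoRelation D α y := h

open Classical in
/-- **Main result.** -/
theorem result (s n D : ℕ) : ∃ (k₀ C : ℕ) (δ : ℝ), 0 < δ ∧ ∀ α : Fin s → ℂ,
    (∀ i, IsAlgebraic ℚ (α i)) → LinearIndependent ℚ α →
    Module.Finite (algebraicClosure ℚ ℂ) (RelCoeffs D α) ∧
    finrank (algebraicClosure ℚ ℂ) (RelCoeffs D α) ≤ ((D + 1) ^ s + 1) ^ 3 + 1 ∧
    ∀ k ≥ k₀, ∀ lam : Fin n → Fin k → ℂ, (∀ j i, lam j i ∈ LogForms) →
      (∀ j, LinearIndependent (algebraicClosure ℚ ℂ) (lam j)) →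
      ∀ ζ : Fin n → ℂ, (∀ j, ζ j ∈ LogForms) →
      ∀ X : Finset ℚ, X.Nonempty →
      (((Fintype.piFinset fun _ : Fin n => Fintype.piFinset fun _ : Fin k => X).filter fun a =>
        ¬ NoRelation D α (fun j => ζ j + ∑ i, (a j i : ℂ) * lam j i)).card : ℝ) ≤
        C * (X.card : ℝ) ^ ((n * k : ℝ) - δ * k) := by
  obtain ⟨k₀, C, δ, hδ, h⟩ := Run7.h788.rand_lin D n ((D + 1) ^ s) 0
  refine ⟨k₀, C, δ, hδ, fun α hα hαi => ?_⟩
  obtain ⟨W, hWf, hWr, hE, hmain⟩ := Pool.Agent.R350.exp_setup D α hα hαi
  have hS := Pool.Agent.R350.setup_complex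
  obtain ⟨h1, h2⟩ := Pool.Agent.R350.relC_bound D α hα hαi
  refine ⟨h1, h2, fun k hk lam hlam hli ζ hζ X hX => ?_⟩
  have h5 := h k hk (algebraicClosure ℚ ℂ) ℂ Pool.Agent.H301R2.SSE.Lt hS.hyp hS.one W hWf hWr lam
    hlam hli X hX ζ hζ
  refine le_trans ?_ h5
  exact_mod_cast Finset.card_le_card fun a ha => by
    rw [Finset.mem_filter] at ha ⊢
    exact ⟨ha.1, fun hgood => ha.2 (noRelation_of (hmain n _ hgood))⟩

end Pool.Agent.Results.MP_c82530_nt.RandomCombinations
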