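import Mathlib
import Pool.Agent.Run7.h643.MW.Count
import Pool.Agent.H297R2.ThmJs

/-!
# Gel'fond's conjecture in growing degree for logarithms of numbers chosen one after the other in windows

Let `α_1, …, α_l` be algebraic numbers which are linearly independent over the rational numbers. We choose further
algebraic numbers in `t` steps. In step `j` we are given an algebraic number `ξ_j` of degree at most `m` and height at
most `|ξ_j| ^ A`, and a bound `H_j` with `(H_j + 2) ^ ((δ + 2) ^ C) ≤ |ξ_j|`; both `ξ_j` and `H_j` may depend on the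
numbers `α_i` and on all numbers which have been chosen before. We choose `r` distinct numbers
`ξ_j + β_{j,1}, …, ξ_j + β_{j,r}` in the window around `ξ_j` which consists of the `ξ_j + β`, `β ≠ 0` of degree at most
`d` and height at most `H_j`.

(1) In step `j` (`j = 0, …, t - 1`) there are at most `l + r j + 2` forbidden numbers, which depend only on the `α_i` and
on the numbers chosen before. If they are avoided, then the `l + t r` numbers

  `e ^ α_1, …, e ^ α_l`, `log (ξ_j + β_{j,i})` (`j < t`, `i < r`; arbitrary logarithms)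

satisfy no nontrivial relation of degree at most `δ` over number fields of degree at most `δ`. The exponent `C` depends
only on `t, l, r, d, m, A`, and not on the numbers `α_i` and on `δ`.

(2) Let `N_j = N_j (h_1, …, h_{j-1})` be arbitrary functions with integral values which are at least
`(H + 2) ^ ((δ + 2) ^ C)`. Of the `H ^ t` tuples `h` in `[1, H] ^ t` at most `t (l + t + 1) H ^ (t - 1)` are such that
`e ^ α_1, …, e ^ α_l` and some logarithms of `N_1 + h_1, …, N_t + h_t` satisfy a nontrivial relation of degree at most `δ`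
over a number field of degree at most `δ`. So the exceptional tuples have density at most `t (l + t + 1) / H` in every
box with sides of length `H` in the region `n_j ≥ (H + 2) ^ ((δ + 2) ^ C)`, where `H` may be a constant, and in thin sets of
tuples, like the pairs `(n, n + h)` or `(n, n ^ n + h)` with `n` and `h` in intervals of length `H`.

For one window (`t = 1`) part (1) is the starting result `GrowingDegreeWindows` of this problem; the windows are here in
arbitrary position to each other. The passage to several windows is the theorem `Pool.Agent.Run7.h643.MW.windows` on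
logarithms over arbitrary constants (its case without exponentials is handed in under `MP_60829e_nt`): the constants of a
step contain the logarithms of the numbers chosen before. The exponentials are constants of this kind, and they satisfy
no relations by the theorem of Lindemann and Weierstrass.
-/

set_option autoImplicit false

namespace Pool.Agent.Results.MP_c82530_nt.SuccessiveWindows

/-- `z` is a root of a nonzero polynomial with integral coefficients of absolute value at most `X`, of degree at most
`m`. -/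
def IsBounded (m : ℕ) (X : ℝ) (z : ℂ) : Prop :=
  ∃ p : Polynomial ℤ, p ≠ 0 ∧ p.natDegree ≤ m ∧ (∀ j, |(p.coeff j : ℝ)| ≤ X) ∧ Polynomial.aeval z p = 0

/-- The numbers `e ^ α_i` and `x_p` satisfy no nontrivial relation of degree at most `δ`: no nonzero polynomial of total
degree at most `δ` over a number field of degree at most `δ` vanishes at them. -/
def NoRelation (δ : ℕ) {l : ℕ} {ι : Type} (α : Fin l → ℂ) (x : ι → ℂ) : Prop :=
  ∀ K : IntermediateField ℚ ℂ, FiniteDimensional ℚ K → Module.finrank ℚ K ≤ δ →
    ∀ P : MvPolynomial (Fin l ⊕ ι) K, P ≠ 0 → P.totalDegree ≤ δ →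
      MvPolynomial.aeval (Sum.elim (fun i => Complex.exp (α i)) x) P ≠ 0

lemma noRelation_of_fr {δ l : ℕ} {ι : Type} {α : Fin l → ℂ} {x : ι → ℂ} (hα : ∀ i, IsAlgebraic ℚ (α i))
    (hli : LinearIndependent ℚ α)
    (h : Pool.Agent.Run7.h643.MW.Fr δ (fun i => Complex.exp (α i)) x) : NoRelation δ α x :=
  fun K hK hKd P hP0 hPd hP => hP0 (Pool.Agent.R351.GD.inj_subK _
    (Pool.Agent.R351.GD.indep_field _ (Pool.Agent.H297R2.exp_algebraicIndependent α hα hli) K hK) P
    (h K hK hKd P hPd hP))

open Classical in
/-- **Main result.** -/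
theorem result (t l r d m A : ℕ) : ∃ C : ℕ,
    (∀ (δ : ℕ) (ξ : Fin t → (Fin t → Fin r → ℂ) → ℂ) (H : Fin t → (Fin t → Fin r → ℂ) → ℕ),
      (∀ j β β', (∀ i, i < j → β i = β' i) → ξ j β = ξ j β' ∧ H j β = H j β') →
      ∀ α : Fin l → ℂ, (∀ i, IsAlgebraic ℚ (α i)) → LinearIndependent ℚ α →
      ∃ S : Fin t → (Fin t → Fin r → ℂ) → Finset ℂ,
        (∀ j β, (S j β).card ≤ l + r * j + 2) ∧
        (∀ j β β', (∀ i, i < j → β i = β' i) → S j β = S j β') ∧
        ∀ β : Fin t → Fin r → ℂ,
          (∀ j, ((H j β : ℝ) + 2) ^ ((δ + 2) ^ C) ≤ ‖ξ j β‖) →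
          (∀ j, IsBounded m (‖ξ j β‖ ^ A) (ξ j β)) →
          (∀ j, Function.Injective (β j)) →
          (∀ j i, β j i ∉ S j β ∧ β j i ≠ 0 ∧ IsBounded d (H j β) (β j i)) →
          ∀ x : Fin t → Fin r → ℂ, (∀ j i, Complex.exp (x j i) = ξ j β + β j i) →
            NoRelation δ α fun p : Fin t × Fin r => x p.1 p.2) ∧
    (∀ (δ H : ℕ) (N : Fin t → (Fin t → ℕ) → ℕ),
      (∀ j h h', (∀ i, i < j → h i = h' i) → N j h = N j h') →
      (∀ j h, (H + 2) ^ ((δ + 2) ^ C) ≤ N j h) →
      ∀ α : Fin l → ℂ, (∀ i, IsAlgebraic ℚ (α i)) → LinearIndependent ℚ α →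
      ((Fintype.piFinset fun _ : Fin t => Finset.Icc 1 H).filter fun h =>
        ∃ x : Fin t → ℂ, (∀ j, Complex.exp (x j) = N j h + h j) ∧ ¬ NoRelation δ α x).card ≤
          t * (l + t + 1) * H ^ (t - 1)) := by
  obtain ⟨C₁, h1⟩ := Pool.Agent.Run7.h643.MW.windows t l r d m A
  obtain ⟨C₂, h2⟩ := Pool.Agent.Run7.h643.MW.integers t l
  refine ⟨C₁ + C₂, fun δ ξ H hdep α hα hli => ?_, fun δ H N hN hNH α hα hli => ?_⟩
  · obtain ⟨S, hS1, hS2, hS3⟩ := h1 δ ξ H hdep fun i => Complex.exp (α i)
    refine ⟨S, hS1, hS2, fun β hξ hHt hinj hβ x hx => noRelation_of_fr hα hli ?_⟩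
    refine hS3 β (fun j => ?_) hHt hinj (fun j i => ⟨(hβ j i).1, (hβ j i).2.1, ?_⟩) x hx
    · have hH : (1 : ℝ) ≤ (H j β : ℝ) + 2 := by linarith [(Nat.cast_nonneg (H j β) : (0 : ℝ) ≤ H j β)]
      exact (pow_le_pow_right₀ hH (Nat.pow_le_pow_right (by omega) (by omega))).trans (hξ j)
    · obtain ⟨p, hp0, hpd, hpc, hpz⟩ := (hβ j i).2.2
      exact ⟨p, hp0, hpd, fun l => by exact_mod_cast hpc l, hpz⟩
  · refine le_trans (Finset.card_le_card ?_) (h2 δ H N hN (fun j h => ?_) fun i => Complex.exp (α i))
    · intro h hh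
      rw [Finset.mem_filter] at hh ⊢
      obtain ⟨hh1, x, hx, hx2⟩ := hh
      exact ⟨hh1, x, hx, fun hf => hx2 (noRelation_of_fr hα hli hf)⟩
    · exact (Nat.pow_le_pow_right (by omega) (Nat.pow_le_pow_right (by omega) (by omega))).trans (hNH j h)

end Pool.Agent.Results.MP_c82530_nt.SuccessiveWindows
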